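import Mathlib

/-!
# A span 12 sequence from an orthogonal feedback function with linear span below `2^n - 2 - 3 n`

`m = 7`, `n = 12`, taps `1, 3, 4, 6, 7, 10, 11`, `c = 1`, primitive polynomial
`x^7 + x^6 + x^5 + x^4 + x^2 + x + 1` and `g(x) = Tr(α^9 x^5)`.  The complement of the generated sequence
is a span 12 sequence of linear span (at most) `4056`, the sequence itself has linear span at most `4057`,
and `2^12 - 2 - 3 * 12 = 4058`.
-/

set_option autoImplicit false

open Finset

namespace Pool.Agent.Results.MP_593d43_lc.LinearSpanTooSmall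

/-- The element `∑ v_i α^i` with coordinates `v` in the basis `1, α, …, α^(m-1)`. -/
def vec {K : Type} [Field K] (α : K) {m : ℕ} (v : Fin m → ZMod 2) : K :=
  ∑ i, ((v i).val : K) * α ^ (i : ℕ)

/-- `(-1)^b` -/
def sgn (b : ZMod 2) : ℤ := if b = 0 then 1 else -1

/-- `g` is orthogonal: `∑_x (-1)^(g(λ x) + g(x)) = 0` for every `λ ≠ 1`. -/
def Orthogonal {K : Type} [Field K] [Fintype K] (g : K → ZMod 2) : Prop :=
  ∀ l : K, l ≠ 1 → ∑ x, sgn (g (l * x) + g x) = 0

/-- `g` is affine in the coordinates. -/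
def AffineInCoords {K : Type} [Field K] (α : K) (m : ℕ) (g : K → ZMod 2) : Prop :=
  ∃ (a : Fin m → ZMod 2) (b : ZMod 2), ∀ v : Fin m → ZMod 2, g (vec α v) = b + ∑ i, a i * v i

/-- `s` has period `2^n - 1` and each nonzero `n`-tuple occurs exactly once among the `n`-windows of one
period. -/
def SpanSeq (n : ℕ) (s : ℕ → ZMod 2) : Prop :=
  (∀ k, s (k + (2 ^ n - 1)) = s k) ∧
    ∀ v : Fin n → ZMod 2, v ≠ 0 → ∃! k, k < 2 ^ n - 1 ∧ ∀ i : Fin n, s (k + i) = v i

/-- the length of the shortest linear feedback shift register generating `s` -/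
noncomputable def linearSpan (s : ℕ → ZMod 2) : ℕ :=
  sInf {L | ∃ a : Fin L → ZMod 2, ∀ k, s (k + L) = ∑ i : Fin L, a i * s (k + i)}

/-- the complementary sequence -/
def compl (s : ℕ → ZMod 2) : ℕ → ZMod 2 := fun k => s k + 1

/-- `s` is generated by the `n`-stage nonlinear feedback shift register with feedback
`c + x_0 + g(x_{r_1}, …, x_{r_m})`, where `g` is an orthogonal function on the field `K` with `2^m`
elements, not affine in the coordinates with respect to the basis `1, α, …, α^(m-1)`, `α` primitive, and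
`0 < r_1 < … < r_m < n`, `1 ≤ m < n`. -/
structure Generated (m n : ℕ) {K : Type} [Field K] [Fintype K] (α : K) (g : K → ZMod 2) (c : ZMod 2)
    (r : Fin m → ℕ) (s : ℕ → ZMod 2) : Prop where
  one_le : 1 ≤ m
  lt : m < n
  card : Fintype.card K = 2 ^ m
  primitive : orderOf α = 2 ^ m - 1
  orth : Orthogonal g
  nonaffine : ¬ AffineInCoords α m g
  mono : StrictMono r
  taps : ∀ i, 0 < r i ∧ r i < n
  feedback : ∀ k, s (k + n) = c + s k + g (vec α fun i => s (k + r i))

/-- the lower bound of Q1, for the linear span of `s` -/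
def LowerBound : Prop :=
  ∀ (m n : ℕ) (K : Type) [Field K] [Fintype K] (α : K) (g : K → ZMod 2) (c : ZMod 2) (r : Fin m → ℕ)
    (s : ℕ → ZMod 2), Generated m n α g c r s → (SpanSeq n s ∨ SpanSeq n (compl s)) →
      2 ^ n - 2 - 3 * n ≤ linearSpan s

/-- the same lower bound, for the linear span of the span `n` sequence (`s` or its complement) -/
def LowerBoundSpan : Prop :=
  ∀ (m n : ℕ) (K : Type) [Field K] [Fintype K] (α : K) (g : K → ZMod 2) (c : ZMod 2) (r : Fin m → ℕ)
    (s t : ℕ → ZMod 2), Generated m n α g c r s → (t = s ∨ t = compl s) → SpanSeq n t →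
      2 ^ n - 2 - 3 * n ≤ linearSpan t

/-! ### The data -/

/-- one period of `s` -/
def Q : ℕ := 0x642183d966c235e34b3861f5db872fc372427d3f436bab2e99a70b49d7d9f9bf9681c8de7442bdcc42592303f606787e494ff026bfeb4bdecc3a4cb970a93538db54ea7cf5117cd2144107c89a62ff300e0323bdf2a5cf1caf0bb1712d3c960d1c9cc2703b3945d7a9b7298231a2369d3456f6ed0b8149e0ef8ed7b56c751c1ff90301f636467c671f7adbee8cc773e5da94df0ede569ab8211e105c8b996e387a3706649c4fc13a1d542ac480238a0e21cf68b314658aab531fe89d82bad6ea001e433abb37158d5856be4dcd97a14d28639dfdb6683c4434fb9053d8590758f182c62c25034955e986c651b017afdc02b3ce0befb7ea5bc7aacca73fe26f759d2ea4989c85fa6eba54d6ceda343e201aca86bba45bb84877541239a30bc8fe7ef27f0a5f06e831190feeca0aa2d5745089772d839983085803186577d5224d8832fa3f177a2f62605d09b5092da469b337866b8f2ca437a52c71d3d70d01b7abcf285b6e9da655326840f5825604074763e67f4b5ceb7cec95c596a2a78a8f3ed6afce4a3e815024f84c6ec315cd552afac999ce6ef3586a0d51a90223e0059f50e325fc6fc7ebcbcc80a0279b629dc63db2b2299dddb0f319b416ff7ed2b6b351894971ad12a2444f4115f148f77e52899ee23ae55b9c5e24906cf4e58708b11452bfab4327bc5a3d2099102d62d93bc1474025e06fa48ab930a1e021effe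

/-- two periods of `s` -/
def Q2 : ℕ := Q ||| (Q <<< 4095)

/-- the complement of `Q2` -/
def R2 : ℕ := (2 ^ 8190 - 1) ^^^ Q2

/-- recurrence of length `4057` for `s` -/
def A1 : ℕ := 0x24d41b047346d41c5a7eba989919171087af5d7870ad5ad1d62c6d4d46e06b6cbc989968e20e49d36bcf12da6392c6800324dbe4208ae7c8363db7961a22ce3c90db3ca1c3ec510fe30e51d25a888159b0d95b79d4fcbf982d9bfb93099ae05a9fab5afabc8e9d4ef28cc7b1290dc67be6663d3fd1cc244ee156ef7010ad8e0e5049075faaf1d706935bac13cf4e98be5476347e50c7aaf9d078d49143d86d59187d0fcf924f7e820f52646564c3f82d0f243097b306536d9bfe14a0f2a078dd09765a9221da556ec73cb265ede6e5fffb891ce8493ab53b27c56f1e0bf9dad7a142667c10e5a7554021f865b5d1a108cd25c2f4f6cd3f3e5f556ee57ff21b1d6654540a3e731e0ad676f07f298986b7198107ec4aa9486ec217f2afd87b315d6f463ce618c3c09f100048a4f1e3263354bd37eb557cd2f9f7ab79b2790a2dc24583422ec15a4f64c1a97a2afea5f5ade42e0084145304fd50e0808a37233891bde80c8ab8c0385d2e0df6029dc9c058135e399c193a083323da21901887ad13f1afbe3a49d00cc8ef91a1ab752a576d4a693f72139a53db1bb0c06d254e9bc9d25989365e06881831ab0f73b0f495aa496a77caad399701438a38151545cf794f6bfc7553bed2d9f20d0abc4661d928dde1e64d390247224938843f2523dac8e9ac5b3e774caf180579a87c5105c1deb333bb2aefddce0a311c585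

/-- recurrence of length `4056` for the complement -/
def A2 : ℕ := 0x1c4c0903d13db3f4362a69887708f2f07d6534d7d064c9b0b21bdb3b3da026db947788d85e05c74ed9450e49de8e427ffee3b6a3e079a2b81214928df61e45eb8fb6eb9f415bcf055efa30b1c98780c89048c928b3ab9577e489568ef889a0367566c9a9947a74c5ae7bbd6f18fb42295dddeb154f441c3a5f325ad00f9b7a05cfc702ca99af4d0271369bf1453a7795cc2dec2a304299a8b0284c70c14824c8f7d4faba8e3ad581face23dcdc4157e4fae3ef8d6efdcedb76aa0c60519fd7b4f8d23671e0b63325bd146e235b5da35556870ba7c7166ce91d43250a06a8b64d60c1ddd40fa362ccc01f57dc934f60f844e341ac5244eaea353325a32aae090b2233cc0615d10a064dd2502ae778826d0880fd5bc6673825be0d519ab7d6ef34dac2145df7bebf8af0003863af5ee2113394ed59332bb1a8ad66d76e28f9e4be3c813e1a40c9c523bf6729e6559cac9b5c1a007c0c3103ab305f8079ed1ee87094a7fb86684017cb1a04adfe74b8bfc80eca177408e9f8111eb61f70087d64f1509a95e9c74ffbb85a8f60992ce632db39d8ead1f1763149096fbfdb1cc589474e3778edca0278081099052e90538c99c7262d4664e88d00c179e80cf33cbad73ad9542cce95b1b751fb066bc220b7184b5f5dc4e8fe3d1e38e87c151ce149b8589bc915d2c465080328982bcf0340b591116919a54b45f9ef0bc83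

/-- truth table of `g` -/
def T : ℕ := 0xd88d4ee4d78241ebd77d4114278db1e4

def bit (k : ℕ) : Bool := Q.testBit (k % 4095)

def acc (B A : ℕ) : ℕ → ℕ → ℕ
  | 0, lo => if A.testBit lo then B >>> lo else 0
  | j + 1, lo => acc B A j lo ^^^ acc B A j (lo + 2 ^ j)

def allB (f : ℕ → Bool) : ℕ → ℕ → Bool
  | 0, lo => f lo
  | j + 1, lo => allB f j lo && allB f j (lo + 2 ^ j)

def orB (f : ℕ → ℕ) : ℕ → ℕ → ℕ
  | 0, lo => f lo
  | j + 1, lo => orB f j lo ||| orB f j (lo + 2 ^ j)

theorem allB_spec (f : ℕ → Bool) (j : ℕ) : ∀ lo, allB f j lo = true → ∀ k, lo ≤ k → k < lo + 2 ^ j → f k = true := by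
  induction j with
  | zero => intro lo h k h1 h2; have : k = lo := by simp at h2; omega
            subst this; exact h
  | succ j ih =>
    intro lo h k h1 h2
    simp only [allB, Bool.and_eq_true] at h
    by_cases hk : k < lo + 2 ^ j
    · exact ih lo h.1 k h1 hk
    · exact ih (lo + 2 ^ j) h.2 k (by omega) (by rw [pow_succ] at h2; omega)

theorem orB_spec (f : ℕ → ℕ) (j : ℕ) : ∀ lo v, (orB f j lo).testBit v = true →
    ∃ k, lo ≤ k ∧ k < lo + 2 ^ j ∧ (f k).testBit v = true := by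
  induction j with
  | zero => intro lo v h; exact ⟨lo, le_rfl, by simp, h⟩
  | succ j ih =>
    intro lo v h
    simp only [orB, Nat.testBit_or, Bool.or_eq_true] at h
    rcases h with h | h
    · obtain ⟨k, h1, h2, h3⟩ := ih lo v h
      exact ⟨k, h1, by rw [pow_succ]; omega, h3⟩
    · obtain ⟨k, h1, h2, h3⟩ := ih (lo + 2 ^ j) v h
      exact ⟨k, by omega, by rw [pow_succ]; omega, h3⟩

/-- a bit as an element of `ZMod 2` -/
def bz (b : Bool) : ZMod 2 := if b then 1 else 0

theorem bz_xor (a b : Bool) : bz (a ^^ b) = bz a + bz b := by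
  cases a <;> cases b <;> decide

theorem acc_spec (B A : ℕ) (j : ℕ) : ∀ lo k, bz ((acc B A j lo).testBit k) =
    ∑ i ∈ Finset.Ico lo (lo + 2 ^ j), bz (A.testBit i) * bz (B.testBit (i + k)) := by
  induction j with
  | zero =>
    intro lo k
    simp only [acc, pow_zero, Nat.Ico_succ_singleton, Finset.sum_singleton]
    by_cases h : A.testBit lo = true
    · simp [h, bz, Nat.testBit_shiftRight]
    · simp [h, bz]
  | succ j ih =>
    intro lo k
    simp only [acc, Nat.testBit_xor]
    rw [bz_xor, ih, ih, Finset.sum_Ico_consecutive _ (Nat.le_add_right _ _) (Nat.le_add_right _ _)]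
    congr 2
    rw [pow_succ]; ring

/-! ### The kernel computations -/

def stepN (n : ℕ) : ℕ := if n.testBit 6 then (2 * n) ^^^ 0xf7 else 2 * n

def pN : ℕ → ℕ
  | 0 => 1
  | i + 1 => stepN (pN i)

def idx (k : ℕ) : ℕ := (bit (k + 1)).toNat + 2 * (bit (k + 3)).toNat + 4 * (bit (k + 4)).toNat +
  8 * (bit (k + 6)).toNat + 16 * (bit (k + 7)).toNat + 32 * (bit (k + 10)).toNat + 64 * (bit (k + 11)).toNat

def fbOK (k : ℕ) : Bool := (bit (k + 12)) == (!(bit k ^^ T.testBit (idx k)))

theorem chk_fb : allB fbOK 12 0 = true := by decide +kernel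

def win (k : ℕ) : ℕ := (R2 >>> k) % 4096

theorem chk_win : orB (fun k => if k < 4095 then 1 <<< win k else 0) 12 0 = 2 ^ 4096 - 2 := by
  decide +kernel

theorem chk_A1 : acc Q2 A1 12 0 % 2 ^ 4095 = 0 := by decide +kernel

theorem chk_A2 : acc R2 A2 12 0 % 2 ^ 4095 = 0 := by decide +kernel

theorem chk_A1' : A1 < 2 ^ 4058 ∧ A1.testBit 4057 = true := by decide +kernel

theorem chk_A2' : A2 < 2 ^ 4057 ∧ A2.testBit 4056 = true := by decide +kernel

theorem chk_Q : Q < 2 ^ 4095 := by decide +kernel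


/-! ### The sequence -/

/-- the sequence -/
def s (k : ℕ) : ZMod 2 := bz (bit k)

theorem bit_period (k : ℕ) : bit (k + 4095) = bit k := by simp [bit]

theorem bit_mod (k j : ℕ) : bit (k % 4095 + j) = bit (k + j) := by simp [bit]

theorem bz_not (b : Bool) : bz (!b) = bz b + 1 := by cases b <;> decide

theorem compl_s (k : ℕ) : compl s k = bz (!bit k) := by rw [bz_not]; rfl

theorem Q2_bit (i : ℕ) (h : i < 8190) : Q2.testBit i = bit i := by
  unfold Q2 bit
  rw [Nat.testBit_or, Nat.testBit_shiftLeft]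
  by_cases hi : i < 4095
  · rw [Nat.mod_eq_of_lt hi]
    have : ¬ (4095 ≤ i) := by omega
    simp [this]
  · have h1 : Q.testBit i = false :=
      Nat.testBit_eq_false_of_lt (lt_of_lt_of_le chk_Q (Nat.pow_le_pow_right (by norm_num) (by omega)))
    have h2 : i % 4095 = i - 4095 := by omega
    have h3 : 4095 ≤ i := by omega
    rw [h1, h2]
    simp [h3]

theorem R2_bit (i : ℕ) (h : i < 8190) : R2.testBit i = !bit i := by
  unfold R2
  rw [Nat.testBit_xor, Nat.testBit_two_pow_sub_one, Q2_bit i h]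
  simp [h]

theorem rec_of_acc (B A L : ℕ) (t : ℕ → Bool) (hA : A < 2 ^ (L + 1)) (hAL : A.testBit L = true)
    (hL : L < 4096) (hB : ∀ i < 8190, B.testBit i = t i) (ht : ∀ k j, t (k % 4095 + j) = t (k + j))
    (hacc : acc B A 12 0 % 2 ^ 4095 = 0) (k : ℕ) :
    bz (t (k + L)) = ∑ i : Fin L, bz (A.testBit i) * bz (t (k + i)) := by
  have key : ∀ k < 4095, bz (t (k + L)) = ∑ i : Fin L, bz (A.testBit i) * bz (t (k + i)) := by
    intro k hk
    have h0 : (acc B A 12 0).testBit k = false := by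
      have h := congrArg (fun x => Nat.testBit x k) hacc
      simp only [Nat.testBit_mod_two_pow, Nat.zero_testBit] at h
      simpa [hk] using h
    have h1 := acc_spec B A 12 0 k
    rw [h0] at h1
    have h2 : Finset.Ico 0 (0 + 2 ^ 12) = Finset.range 4096 := by
      rw [Finset.range_eq_Ico]; norm_num
    rw [h2] at h1
    have h3 : ∑ i ∈ Finset.range 4096, bz (A.testBit i) * bz (B.testBit (i + k)) =
        ∑ i ∈ Finset.range (L + 1), bz (A.testBit i) * bz (B.testBit (i + k)) := by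
      symm
      apply Finset.sum_subset
      · intro i hi
        rw [Finset.mem_range] at hi ⊢
        omega
      · intro i hi hi'
        rw [Finset.mem_range] at hi hi'
        have : A.testBit i = false :=
          Nat.testBit_eq_false_of_lt (lt_of_lt_of_le hA (Nat.pow_le_pow_right (by norm_num) (by omega)))
        rw [this]; simp [bz]
    rw [h3, Finset.sum_range_succ, hAL] at h1
    have h4 : ∀ i < L + 1, B.testBit (i + k) = t (k + i) := by
      intro i hi
      rw [hB _ (by omega), Nat.add_comm]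
    rw [h4 L (by omega)] at h1
    have h5 : ∑ i ∈ Finset.range L, bz (A.testBit i) * bz (B.testBit (i + k)) =
        ∑ i : Fin L, bz (A.testBit i) * bz (t (k + i)) := by
      rw [Finset.sum_range]
      refine Finset.sum_congr rfl fun i _ => ?_
      rw [h4 i (by omega)]
    rw [h5] at h1
    have h6 : bz false = 0 := rfl
    have h7 : bz true = 1 := rfl
    rw [h6, h7, one_mul] at h1
    generalize (∑ i : Fin L, bz (A.testBit i) * bz (t (k + i))) = X at h1 ⊢
    generalize bz (t (k + L)) = Y at h1 ⊢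
    revert X Y; decide
  have h := key (k % 4095) (Nat.mod_lt _ (by norm_num))
  rw [ht] at h
  rw [h]
  refine Finset.sum_congr rfl fun i _ => ?_
  rw [ht]

theorem linearSpan_s : linearSpan s ≤ 4057 := by
  apply Nat.sInf_le
  exact ⟨fun i => bz (A1.testBit i), fun k => rec_of_acc Q2 A1 4057 bit chk_A1'.1 chk_A1'.2 (by norm_num)
    Q2_bit bit_mod chk_A1 k⟩

theorem linearSpan_compl : linearSpan (compl s) ≤ 4056 := by
  apply Nat.sInf_le
  refine ⟨fun i => bz (A2.testBit i), fun k => ?_⟩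
  have h := rec_of_acc R2 A2 4056 (fun k => !bit k) chk_A2'.1 chk_A2'.2 (by norm_num)
    R2_bit (fun k j => by rw [bit_mod]) chk_A2 k
  rw [compl_s, h]
  refine Finset.sum_congr rfl fun i _ => ?_
  rw [compl_s]

/-! ### Tuples as numbers -/

/-- the number with binary digits `v` -/
def toNat {m : ℕ} (v : Fin m → ZMod 2) : ℕ := ∑ i, (v i).val * 2 ^ (i : ℕ)

theorem toNat_succ {m : ℕ} (v : Fin (m + 1) → ZMod 2) :
    toNat v = (v 0).val + 2 * toNat (fun i => v i.succ) := by
  unfold toNat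
  rw [Fin.sum_univ_succ, Finset.mul_sum]
  simp only [Fin.val_zero, pow_zero, mul_one, Fin.val_succ]
  congr 1
  refine Finset.sum_congr rfl fun i _ => ?_
  rw [pow_succ]; ring

theorem toNat_lt {m : ℕ} (v : Fin m → ZMod 2) : toNat v < 2 ^ m := by
  induction m with
  | zero => simp [toNat]
  | succ m ih =>
    rw [toNat_succ, pow_succ]
    have := ih (fun i => v i.succ)
    have := ZMod.val_lt (v 0)
    omega

theorem toNat_testBit {m : ℕ} (v : Fin m → ZMod 2) (i : Fin m) :
    (toNat v).testBit i = decide (v i = 1) := by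
  induction m with
  | zero => exact i.elim0
  | succ m ih =>
    rw [toNat_succ]
    have h01 : ∀ x : ZMod 2, x.val < 2 := fun x => ZMod.val_lt x
    refine Fin.cases ?_ (fun j => ?_) i
    · rw [Fin.val_zero, Nat.testBit_zero]
      have h : ∀ x : ZMod 2, decide (x.val % 2 = 1) = decide (x = 1) := by decide
      rw [← h]
      congr 2
      omega
    · rw [Fin.val_succ, Nat.testBit_succ, ← ih (fun i => v i.succ) j]
      congr 1
      have := h01 (v 0)
      omega

theorem win_testBit (k i : ℕ) (hk : k < 4095) (hi : i < 12) : (win k).testBit i = !bit (k + i) := by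
  unfold win
  rw [show (4096 : ℕ) = 2 ^ 12 by norm_num, Nat.testBit_mod_two_pow, Nat.testBit_shiftRight,
    R2_bit _ (by omega)]
  simp [hi]

theorem win_lt (k : ℕ) : win k < 4096 := Nat.mod_lt _ (by norm_num)

theorem ones_testBit (n v : ℕ) (h1 : 1 ≤ v) (h2 : v < n) : (2 ^ n - 2).testBit v = true := by
  have h : 2 ^ n - 2 = 2 ^ n - (1 + 1) := rfl
  rw [h, Nat.testBit_two_pow_sub_succ (Nat.one_lt_two_pow (by omega))]
  have h3 : (1 : ℕ).testBit v = false := by
    rw [Nat.testBit_eq_false_of_lt]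
    exact Nat.one_lt_two_pow (by omega)
  simp [h2, h3]

theorem win_surj (v : ℕ) (h1 : 1 ≤ v) (h2 : v < 4096) : ∃ k < 4095, win k = v := by
  have h := ones_testBit 4096 v h1 h2
  rw [← chk_win] at h
  obtain ⟨k, _, _, hk⟩ := orB_spec _ 12 0 v h
  by_cases hk' : k < 4095
  · simp only [hk', if_true] at hk
    refine ⟨k, hk', ?_⟩
    rw [Nat.one_shiftLeft, Nat.testBit_two_pow] at hk
    simpa using hk
  · simp [hk'] at hk

theorem win_inj : Set.InjOn win (Finset.range 4095 : Set ℕ) := by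
  apply Finset.card_image_iff.1
  apply le_antisymm Finset.card_image_le
  have h : Finset.Icc 1 4095 ⊆ (Finset.range 4095).image win := by
    intro v hv
    rw [Finset.mem_Icc] at hv
    obtain ⟨k, hk, hkv⟩ := win_surj v hv.1 (by omega)
    exact Finset.mem_image.2 ⟨k, Finset.mem_range.2 hk, hkv⟩
  calc (Finset.range 4095).card = (Finset.Icc 1 4095).card := by simp
    _ ≤ _ := Finset.card_le_card h

theorem span_compl : SpanSeq 12 (compl s) := by
  have e : 2 ^ 12 - 1 = 4095 := by norm_num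
  refine ⟨fun k => ?_, fun v hv => ?_⟩
  · rw [compl_s, compl_s, e, bit_period]
  · rw [e]
    have hN0 : 1 ≤ toNat v := by
      rw [Nat.one_le_iff_ne_zero]
      intro h0
      apply hv
      funext i
      have h := toNat_testBit v i
      rw [h0, Nat.zero_testBit] at h
      have h1 : v i ≠ 1 := by
        intro h1; rw [h1] at h; simp at h
      have : ∀ x : ZMod 2, x ≠ 1 → x = 0 := by decide
      exact this _ h1
    obtain ⟨k, hk, hkv⟩ := win_surj (toNat v) hN0 (by have := toNat_lt v; norm_num at this ⊢; exact this)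
    have hw : ∀ k' < 4095, ((∀ i : Fin 12, compl s (k' + i) = v i) ↔ win k' = toNat v) := by
      intro k' hk'
      constructor
      · intro h
        apply Nat.eq_of_testBit_eq
        intro i
        by_cases hi : i < 12
        · rw [win_testBit k' i hk' hi, toNat_testBit v ⟨i, hi⟩, ← h ⟨i, hi⟩, compl_s]
          cases bit (k' + i) <;> simp [bz]
        · rw [Nat.testBit_eq_false_of_lt, Nat.testBit_eq_false_of_lt]
          · exact lt_of_lt_of_le (toNat_lt v) (Nat.pow_le_pow_right (by norm_num) (by omega))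
          · exact lt_of_lt_of_le (win_lt k') (le_trans (by norm_num)
              (Nat.pow_le_pow_right (n := 2) (by norm_num) (show 12 ≤ i by omega)))
      · intro h i
        have h1 := win_testBit k' i hk' i.2
        rw [h, toNat_testBit] at h1
        rw [compl_s, ← h1]
        have : ∀ x : ZMod 2, bz (decide (x = 1)) = x := by decide
        exact this _
    refine ⟨k, ⟨hk, (hw k hk).2 hkv⟩, ?_⟩
    rintro k' ⟨hk', h'⟩
    have h1 := (hw k' hk').1 h'
    exact win_inj (by simpa using hk') (by simpa using hk) (h1.trans hkv.symm)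

/-! ### The field and the function `g` -/

def B7 (n : ℕ) : Fin 7 → ZMod 2 := fun i => bz (n.testBit i)

def stepV (v : Fin 7 → ZMod 2) : Fin 7 → ZMod 2 :=
  ![v 6, v 0 + v 6, v 1 + v 6, v 2, v 3 + v 6, v 4 + v 6, v 5 + v 6]

theorem stepN_spec : ∀ n < 128, stepN n < 128 ∧ ∀ i, B7 (stepN n) i = stepV (B7 n) i := by
  decide +kernel

theorem toNat_B7 : ∀ n < 128, toNat (B7 n) = n := by decide +kernel

theorem pN_lt (i : ℕ) : pN i < 128 := by
  induction i with
  | zero => norm_num [pN]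
  | succ i ih => exact (stepN_spec _ ih).1

/-- the bits `g(α^i)` -/
def SB : ℕ := 0x6c91c2f95cd13c50c103faa6774b1bda

theorem chk_SB : ∀ i < 127, T.testBit (pN i) = SB.testBit i := by decide +kernel

def cor (k : ℕ) : ℤ := ∑ i ∈ Finset.range 127, sgn (bz (SB.testBit ((k + i) % 127)) + bz (SB.testBit i))

theorem chk_cor : ∀ k < 127, k = 0 ∨ cor k = -1 := by decide +kernel

theorem chk_bal : ∑ i ∈ Finset.range 127, sgn (bz (SB.testBit i)) = -1 := by decide +kernel

section field

variable {K : Type} [Field K]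

theorem cast_bz_add (h2 : (2 : K) = 0) (a b : ZMod 2) : (((a + b).val : ℕ) : K) = (a.val : K) + (b.val : K) := by
  have h : ∀ a b : ZMod 2, (a + b).val = a.val + b.val ∨ ((a + b).val = 0 ∧ a.val = 1 ∧ b.val = 1) := by
    decide
  rcases h a b with h | ⟨h, ha, hb⟩
  · rw [h]; push_cast; ring
  · rw [h, ha, hb]; push_cast; linear_combination -h2

theorem vec_stepV (h2 : (2 : K) = 0) (α : K) (hα : α ^ 7 + α ^ 6 + α ^ 5 + α ^ 4 + α ^ 2 + α + 1 = 0)
    (v : Fin 7 → ZMod 2) : vec α (stepV v) = α * vec α v := by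
  unfold vec stepV
  simp only [Fin.sum_univ_succ, Fin.sum_univ_zero]
  simp [cast_bz_add h2, -ZMod.natCast_val]
  linear_combination ((v 6).val : K) * hα - ((v 6).val : K) * α ^ 7 * h2

theorem vec_pN (h2 : (2 : K) = 0) (α : K) (hα : α ^ 7 + α ^ 6 + α ^ 5 + α ^ 4 + α ^ 2 + α + 1 = 0)
    (i : ℕ) : vec α (B7 (pN i)) = α ^ i := by
  induction i with
  | zero =>
    have h : B7 (pN 0) = Pi.single 0 1 := by decide
    rw [h, pow_zero]
    unfold vec
    rw [Finset.sum_eq_single 0]
    · have h1 : ((Pi.single 0 1 : Fin 7 → ZMod 2) 0).val = 1 := by decide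
      rw [h1]; simp
    · intro b _ hb; simp [Pi.single_eq_of_ne hb]
    · simp
  | succ i ih =>
    have h : B7 (pN (i + 1)) = stepV (B7 (pN i)) := by
      funext j
      exact (stepN_spec _ (pN_lt i)).2 j
    rw [h, vec_stepV h2 α hα, ih, pow_succ]; ring

variable [Fintype K]

theorem univ_eq [DecidableEq K] (hc : Fintype.card K = 128) (α : K) (ho : orderOf α = 127) :
    (Finset.univ : Finset K) = insert 0 ((Finset.range 127).image (α ^ ·)) := by
  symm
  apply Finset.eq_univ_of_card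
  have hα0 : α ≠ 0 := by
    rintro rfl
    rw [orderOf_zero] at ho
    norm_num at ho
  rw [Finset.card_insert_of_notMem, Finset.card_image_of_injOn, Finset.card_range, hc]
  · intro i hi j hj hij
    simp only [Finset.coe_range, Set.mem_Iio] at hi hj
    exact pow_injOn_Iio_orderOf (by rw [ho]; exact hi) (by rw [ho]; exact hj) hij
  · intro h
    obtain ⟨i, _, hi⟩ := Finset.mem_image.1 h
    exact pow_ne_zero i hα0 hi

theorem sum_eq (hc : Fintype.card K = 128) (α : K) (ho : orderOf α = 127) (F : K → ℤ) :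
    ∑ x, F x = F 0 + ∑ i ∈ Finset.range 127, F (α ^ i) := by
  classical
  have hα0 : α ≠ 0 := by
    rintro rfl
    rw [orderOf_zero] at ho
    norm_num at ho
  rw [univ_eq hc α ho, Finset.sum_insert, Finset.sum_image]
  · intro i hi j hj hij
    simp only [Finset.coe_range, Set.mem_Iio] at hi hj
    exact pow_injOn_Iio_orderOf (by rw [ho]; exact hi) (by rw [ho]; exact hj) hij
  · intro h
    obtain ⟨i, _, hi⟩ := Finset.mem_image.1 h
    exact pow_ne_zero i hα0 hi

theorem cases_elt (hc : Fintype.card K = 128) (α : K) (ho : orderOf α = 127) (x : K) :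
    x = 0 ∨ ∃ i < 127, x = α ^ i := by
  classical
  have h : x ∈ (Finset.univ : Finset K) := Finset.mem_univ x
  rw [univ_eq hc α ho, Finset.mem_insert, Finset.mem_image] at h
  rcases h with h | ⟨i, hi, h⟩
  · exact Or.inl h
  · exact Or.inr ⟨i, Finset.mem_range.1 hi, h.symm⟩

theorem vec_bij (hc : Fintype.card K = 128) (h2 : (2 : K) = 0) (α : K)
    (hα : α ^ 7 + α ^ 6 + α ^ 5 + α ^ 4 + α ^ 2 + α + 1 = 0) (ho : orderOf α = 127) :
    Function.Bijective (vec α : (Fin 7 → ZMod 2) → K) := by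
  rw [Fintype.bijective_iff_surjective_and_card]
  refine ⟨fun x => ?_, ?_⟩
  · rcases cases_elt hc α ho x with rfl | ⟨i, _, rfl⟩
    · exact ⟨0, by simp [vec]⟩
    · exact ⟨_, vec_pN h2 α hα i⟩
  · rw [hc]; simp [ZMod.card]

/-- the feedback function -/
noncomputable def gK (α : K) (x : K) : ZMod 2 :=
  bz (T.testBit (toNat (Function.invFun (vec α : (Fin 7 → ZMod 2) → K) x)))

theorem gK_vec (hc : Fintype.card K = 128) (h2 : (2 : K) = 0) (α : K)
    (hα : α ^ 7 + α ^ 6 + α ^ 5 + α ^ 4 + α ^ 2 + α + 1 = 0) (ho : orderOf α = 127)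
    (v : Fin 7 → ZMod 2) : gK α (vec α v) = bz (T.testBit (toNat v)) := by
  unfold gK
  rw [Function.leftInverse_invFun (vec_bij hc h2 α hα ho).1 v]

theorem gK_zero (hc : Fintype.card K = 128) (h2 : (2 : K) = 0) (α : K)
    (hα : α ^ 7 + α ^ 6 + α ^ 5 + α ^ 4 + α ^ 2 + α + 1 = 0) (ho : orderOf α = 127) :
    gK α 0 = 0 := by
  have h : (0 : K) = vec α (0 : Fin 7 → ZMod 2) := by simp [vec]
  rw [h, gK_vec hc h2 α hα ho]
  decide

theorem gK_pow (hc : Fintype.card K = 128) (h2 : (2 : K) = 0) (α : K)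
    (hα : α ^ 7 + α ^ 6 + α ^ 5 + α ^ 4 + α ^ 2 + α + 1 = 0) (ho : orderOf α = 127) (i : ℕ) :
    gK α (α ^ i) = bz (SB.testBit (i % 127)) := by
  rw [← pow_mod_orderOf, ho, ← vec_pN h2 α hα, gK_vec hc h2 α hα ho, toNat_B7 _ (pN_lt _),
    chk_SB _ (Nat.mod_lt _ (by norm_num))]

theorem gK_orth (hc : Fintype.card K = 128) (h2 : (2 : K) = 0) (α : K)
    (hα : α ^ 7 + α ^ 6 + α ^ 5 + α ^ 4 + α ^ 2 + α + 1 = 0) (ho : orderOf α = 127) :
    Orthogonal (gK α) := by
  intro l hl
  have hg0 := gK_zero hc h2 α hα ho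
  have hs0 : sgn (0 + 0) = 1 := by decide
  rw [sum_eq hc α ho]
  rcases cases_elt hc α ho l with rfl | ⟨k, hk, rfl⟩
  · rw [zero_mul, hg0, hs0]
    have h : ∀ i ∈ Finset.range 127, sgn (gK α (0 * α ^ i) + gK α (α ^ i)) = sgn (bz (SB.testBit i)) := by
      intro i hi
      rw [zero_mul, hg0, zero_add, gK_pow hc h2 α hα ho, Nat.mod_eq_of_lt (Finset.mem_range.1 hi)]
    rw [Finset.sum_congr rfl h, chk_bal]
    norm_num
  · rw [mul_zero, hg0, hs0]
    have h : ∀ i ∈ Finset.range 127, sgn (gK α (α ^ k * α ^ i) + gK α (α ^ i)) =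
        sgn (bz (SB.testBit ((k + i) % 127)) + bz (SB.testBit i)) := by
      intro i hi
      rw [← pow_add, gK_pow hc h2 α hα ho, gK_pow hc h2 α hα ho,
        Nat.mod_eq_of_lt (Finset.mem_range.1 hi)]
    rw [Finset.sum_congr rfl h]
    rcases chk_cor k hk with h0 | h0
    · exact absurd (by rw [h0, pow_zero]) hl
    · unfold cor at h0
      rw [h0]; norm_num

theorem gK_nonaffine (hc : Fintype.card K = 128) (h2 : (2 : K) = 0) (α : K)
    (hα : α ^ 7 + α ^ 6 + α ^ 5 + α ^ 4 + α ^ 2 + α + 1 = 0) (ho : orderOf α = 127) :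
    ¬ AffineInCoords α 7 (gK α) := by
  rintro ⟨a, b, h⟩
  have h0 := h 0
  have h1 := h ![1, 0, 0, 0, 0, 0, 0]
  have h3 := h ![0, 1, 0, 0, 0, 0, 0]
  have h4 := h ![1, 1, 0, 0, 0, 0, 0]
  rw [gK_vec hc h2 α hα ho] at h0 h1 h3 h4
  have e0 : bz (T.testBit (toNat (0 : Fin 7 → ZMod 2))) = 0 := by decide
  have e1 : bz (T.testBit (toNat (![1, 0, 0, 0, 0, 0, 0] : Fin 7 → ZMod 2))) = 0 := by decide
  have e3 : bz (T.testBit (toNat (![0, 1, 0, 0, 0, 0, 0] : Fin 7 → ZMod 2))) = 1 := by decide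
  have e4 : bz (T.testBit (toNat (![1, 1, 0, 0, 0, 0, 0] : Fin 7 → ZMod 2))) = 0 := by decide
  rw [e0] at h0
  rw [e1] at h1
  rw [e3] at h3
  rw [e4] at h4
  simp [Fin.sum_univ_succ] at h0 h1 h3 h4
  subst h0
  rw [zero_add] at h1 h3 h4
  rw [← h1, ← h3] at h4
  exact absurd h4 (by decide)

theorem generated (hc : Fintype.card K = 128) (h2 : (2 : K) = 0) (α : K)
    (hα : α ^ 7 + α ^ 6 + α ^ 5 + α ^ 4 + α ^ 2 + α + 1 = 0) (ho : orderOf α = 127) :
    Generated 7 12 α (gK α) 1 ![1, 3, 4, 6, 7, 10, 11] s where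
  one_le := by norm_num
  lt := by norm_num
  card := by rw [hc]; norm_num
  primitive := by rw [ho]; norm_num
  orth := gK_orth hc h2 α hα ho
  nonaffine := gK_nonaffine hc h2 α hα ho
  mono := by decide
  taps := by decide
  feedback := by
    intro k
    rw [gK_vec hc h2 α hα ho]
    have hidx : toNat (fun i : Fin 7 => s (k + (![1, 3, 4, 6, 7, 10, 11] : Fin 7 → ℕ) i)) = idx k := by
      have hv : ∀ b : Bool, (bz b).val = b.toNat := by decide
      unfold toNat idx s
      simp only [Fin.sum_univ_succ, Fin.sum_univ_zero, hv]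
      simp
      ring
    rw [hidx]
    have hmod : idx (k % 4095) = idx k := by
      unfold idx
      simp only [bit_mod]
    have h := allB_spec fbOK 12 0 chk_fb (k % 4095) (Nat.zero_le _)
      (lt_of_lt_of_le (Nat.mod_lt _ (by norm_num)) (by norm_num))
    unfold fbOK at h
    have hm0 : bit (k % 4095) = bit k := by simpa using bit_mod k 0
    rw [hmod, bit_mod, hm0] at h
    have h' : bit (k + 12) = !(bit k ^^ T.testBit (idx k)) := by simpa using h
    unfold s
    rw [h', bz_not, bz_xor]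
    ring

end field

/-! ### Existence of the field -/

theorem pow128 {R : Type} [CommRing R] (h2 : (2 : R) = 0) (x : R)
    (h : x ^ 7 + x ^ 6 + x ^ 5 + x ^ 4 + x ^ 2 + x + 1 = 0) : x ^ 2 ^ 7 = x := by
  have h8 : x ^ 8 = x ^ 4 + x ^ 3 + 1 := by
    linear_combination (-1 + x) * h - x ^ 3 * h2
  have h16 : x ^ 16 = x ^ 6 + x ^ 4 + x ^ 3 := by
    have : x ^ 16 = (x ^ 8) ^ 2 := by ring
    rw [this, h8]
    linear_combination (1 + x) * h - (x + x ^ 2 + x ^ 5 + x ^ 6) * h2
  have h32 : x ^ 32 = x ^ 5 + x ^ 2 + x + 1 := by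
    have : x ^ 32 = (x ^ 16) ^ 2 := by ring
    rw [this, h16]
    linear_combination (-1 + 2 * x ^ 3 - x ^ 4 + x ^ 5) * h + (-x ^ 3 - x ^ 5 + x ^ 6) * h2
  have h64 : x ^ 64 = x ^ 6 + x ^ 5 + x ^ 4 + 1 := by
    have : x ^ 64 = (x ^ 32) ^ 2 := by ring
    rw [this, h32]
    linear_combination (2 - x ^ 2 + x ^ 3) * h + (-1 + x ^ 2 + x ^ 3 - x ^ 4 - x ^ 5) * h2
  have h128 : x ^ 2 ^ 7 = (x ^ 64) ^ 2 := by ring
  rw [h128, h64]
  linear_combination (-1 - x ^ 2 + x ^ 3 + x ^ 4 + x ^ 5) * h + (1 + x ^ 2 + x ^ 4 + x ^ 6) * h2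

open Polynomial in
noncomputable def fpoly : (ZMod 2)[X] := X ^ 7 + X ^ 6 + X ^ 5 + X ^ 4 + X ^ 2 + X + 1

open Polynomial in
theorem fpoly_dvd : fpoly ∣ X ^ 2 ^ 7 - X := by
  rw [← AdjoinRoot.mk_eq_zero]
  have h0 : AdjoinRoot.mk fpoly (X ^ 7 + X ^ 6 + X ^ 5 + X ^ 4 + X ^ 2 + X + 1) = 0 := AdjoinRoot.mk_self
  have h2 : (2 : AdjoinRoot fpoly) = 0 := by
    have : (AdjoinRoot.of fpoly) (2 : ZMod 2) = 2 := map_ofNat _ 2
    rw [← this, show (2 : ZMod 2) = 0 from rfl, map_zero]
  simp only [map_add, map_pow, map_one] at h0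
  rw [map_sub, map_pow, pow128 h2 _ h0, sub_self]

open Polynomial in
theorem gal_splits (p n : ℕ) [Fact p.Prime] (hn : n ≠ 0) :
    ((X ^ p ^ n - X : (ZMod p)[X]).map (algebraMap (ZMod p) (GaloisField p n))).Splits := by
  have h := FiniteField.splits_X_pow_nat_card_sub_X (p := p) (K := GaloisField p n)
  rwa [GaloisField.card p n hn] at h

open Polynomial in
theorem exists_root : ∃ α : GaloisField 2 7, α ^ 7 + α ^ 6 + α ^ 5 + α ^ 4 + α ^ 2 + α + 1 = 0 := by
  have hdeg : fpoly.natDegree = 7 := by unfold fpoly; compute_degree!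
  have hsp := gal_splits 2 7 (by norm_num)
  have hne : (X ^ 2 ^ 7 - X : (ZMod 2)[X]).map (algebraMap (ZMod 2) (GaloisField 2 7)) ≠ 0 := by
    rw [Polynomial.map_ne_zero_iff (algebraMap (ZMod 2) (GaloisField 2 7)).injective]
    exact FiniteField.X_pow_card_pow_sub_X_ne_zero _ (by norm_num) (by norm_num)
  have hfs : (fpoly.map (algebraMap (ZMod 2) (GaloisField 2 7))).Splits :=
    hsp.of_dvd hne (Polynomial.map_dvd _ fpoly_dvd)
  have hd : (fpoly.map (algebraMap (ZMod 2) (GaloisField 2 7))).degree ≠ 0 := by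
    rw [Polynomial.degree_map]
    exact Polynomial.degree_ne_of_natDegree_ne (by rw [hdeg]; norm_num)
  obtain ⟨a, ha⟩ := hfs.exists_eval_eq_zero hd
  refine ⟨a, ?_⟩
  rw [← ha]
  simp [fpoly]

/-- Data as in Q1 with `m = 7`, `n = 12`, such that the complement of the generated sequence is a span
`12` sequence, but the linear span of the sequence and that of its complement are less than
`2^12 - 2 - 3 * 12`; so the lower bound of Q1 fails in both readings. -/
theorem result :
    (∃ (K : Type) (_ : Field K) (_ : Fintype K) (α : K) (g : K → ZMod 2) (r : Fin 7 → ℕ)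
      (s : ℕ → ZMod 2), Generated 7 12 α g 1 r s ∧ SpanSeq 12 (compl s) ∧
        linearSpan s < 2 ^ 12 - 2 - 3 * 12 ∧ linearSpan (compl s) < 2 ^ 12 - 2 - 3 * 12) ∧
    ¬ LowerBound ∧ ¬ LowerBoundSpan := by
  have hex : ∃ (K : Type) (_ : Field K) (_ : Fintype K) (α : K) (g : K → ZMod 2) (r : Fin 7 → ℕ)
      (s : ℕ → ZMod 2), Generated 7 12 α g 1 r s ∧ SpanSeq 12 (compl s) ∧
        linearSpan s < 2 ^ 12 - 2 - 3 * 12 ∧ linearSpan (compl s) < 2 ^ 12 - 2 - 3 * 12 := by
    obtain ⟨α, hα⟩ := exists_root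
    let _ : Fintype (GaloisField 2 7) := Fintype.ofFinite _
    have hc : Fintype.card (GaloisField 2 7) = 128 := by
      rw [← Nat.card_eq_fintype_card, GaloisField.card 2 7 (by norm_num)]; norm_num
    have h2 : (2 : GaloisField 2 7) = 0 := by
      have := CharP.cast_eq_zero (GaloisField 2 7) 2
      exact_mod_cast this
    have hα0 : α ≠ 0 := by
      rintro rfl; simp at hα
    have ho : orderOf α = 127 := by
      have hp : Nat.Prime 127 := by norm_num
      have := Fact.mk hp
      apply orderOf_eq_prime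
      · have := FiniteField.pow_card_sub_one_eq_one α hα0
        rwa [hc] at this
      · rintro rfl
        have : (1 : GaloisField 2 7) = 0 := by linear_combination hα - 3 * h2
        exact one_ne_zero this
    refine ⟨GaloisField 2 7, inferInstance, inferInstance, α, gK α, _, s, generated hc h2 α hα ho,
      span_compl, lt_of_le_of_lt linearSpan_s (by norm_num), lt_of_le_of_lt linearSpan_compl (by norm_num)⟩
  refine ⟨hex, ?_, ?_⟩
  · intro h
    obtain ⟨K, _, _, α, g, r, s, hg, hs, h1, _⟩ := hex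
    exact absurd (h 7 12 K α g 1 r s hg (Or.inr hs)) (not_le.2 h1)
  · intro h
    obtain ⟨K, _, _, α, g, r, s, hg, hs, _, h1⟩ := hex
    exact absurd (h 7 12 K α g 1 r s (compl s) hg (Or.inr rfl) hs) (not_le.2 h1)

end Pool.Agent.Results.MP_593d43_lc.LinearSpanTooSmall
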